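import Pool.Agent.H27.CAL.Stmts2

open Finset

namespace CAL

/-- children relation -/
def ptak_R (H : Finset ℕ → Prop) (G' G : Finset ℕ) : Prop :=
  H G' ∧ ∃ s, (∀ g ∈ G, g < s) ∧ G' = insert s G

theorem ptak_wf {H : Finset ℕ → Prop} (hH : Hered H) (hW : WFam H) :
    WellFounded (ptak_R H) := by
  rw [wellFounded_iff_isEmpty_descending_chain]
  refine ⟨fun ⟨f, hf⟩ => ?_⟩
  choose hH' s hs he using hf
  have hmem : ∀ n, s n ∈ f (n + 1) := fun n => by rw [he n]; exact mem_insert_self _ _
  have hmono : StrictMono s := strictMono_nat_of_lt_succ fun n => hs (n + 1) _ (hmem n)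
  obtain ⟨n, hn⟩ := hW s hmono
  apply hn
  have hsub : ∀ k, (range k).image s ⊆ f k := by
    intro k
    induction k with
    | zero => simp
    | succ k ih =>
      rw [range_add_one, image_insert, he k]
      exact insert_subset_insert _ ih
  refine hH _ _ ((hsub n).trans ?_) (hH' n)
  rw [he n]
  exact subset_insert _ _

/-- the conclusion for a finite set of initial parts -/
def ptak_Q (H : Finset ℕ → Prop) (𝒢 : Finset (Finset ℕ)) : Prop :=
  ∀ e : ℝ, 0 < e → ∀ m : ℕ, ∃ n : ℕ, ∃ l : ℕ → ℝ, (∀ s, 0 ≤ l s) ∧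
    (∀ s, (s < m ∨ n ≤ s) → l s = 0) ∧ ∑ s ∈ range n, l s = 1 ∧
    ∀ G ∈ 𝒢, ∀ S : Finset ℕ, (∀ g ∈ G, ∀ s ∈ S, g < s) → H (G ∪ S) → ∑ s ∈ S, l s ≤ e

theorem ptak_sum_le {l : ℕ → ℝ} {n : ℕ} (h0 : ∀ s, 0 ≤ l s) (h1 : ∀ s, n ≤ s → l s = 0)
    (S : Finset ℕ) : ∑ s ∈ S, l s ≤ ∑ s ∈ range n, l s := by
  have : ∑ s ∈ S, l s = ∑ s ∈ S with s < n, l s := by
    rw [sum_filter]
    refine sum_congr rfl fun s _ => ?_
    by_cases h : s < n
    · simp [h]
    · simp [h, h1 s (not_lt.1 h)]
  rw [this]
  exact sum_le_sum_of_subset_of_nonneg (fun s hs => by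
    rw [mem_filter] at hs; exact mem_range.2 hs.2) fun s _ _ => h0 s

theorem ptak_block {H : Finset ℕ → Prop} (hH : Hered H) (𝒢 : Finset (Finset ℕ))
    (hc : ∀ 𝒞 : Finset (Finset ℕ), (∀ c ∈ 𝒞, ∃ G ∈ 𝒢, ptak_R H c G) → ptak_Q H 𝒞)
    (e : ℝ) (he : 0 < e) (m : ℕ) (N : ℕ) :
    ∃ n : ℕ, ∃ L : ℕ → ℝ, (∀ s, 0 ≤ L s) ∧
      (∀ s, (s < m ∨ n ≤ s) → L s = 0) ∧ ∑ s ∈ range n, L s = N ∧
      ∀ G ∈ 𝒢, ∀ S : Finset ℕ, (∀ g ∈ G, ∀ s ∈ S, g < s) → H (G ∪ S) →
        ∑ s ∈ S, L s ≤ 1 + N * e := by
  induction N with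
  | zero => exact ⟨0, fun _ => 0, by simp, by simp, by simp, by simp⟩
  | succ N ih =>
    obtain ⟨n, L, hL0, hLs, hL1, hLG⟩ := ih
    classical
    set M := max n m with hM
    set 𝒞 : Finset (Finset ℕ) :=
      ((𝒢 ×ˢ range M).image (fun p => insert p.2 p.1)).filter
        (fun c => ∃ G ∈ 𝒢, ptak_R H c G) with h𝒞
    obtain ⟨n', l, hl0, hls, hl1, hlG⟩ := hc 𝒞 (fun c hcc => (mem_filter.1 hcc).2) e he M
    refine ⟨max M n', fun s => L s + l s, fun s => add_nonneg (hL0 s) (hl0 s), ?_, ?_, ?_⟩
    · rintro s (hs | hs) <;> beta_reduce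
      · rw [hLs s (.inl hs), hls s (.inl (hs.trans_le (le_max_right _ _)))]; simp
      · rw [hLs s (.inr ((le_max_left _ _).trans ((le_max_left _ _).trans hs))),
          hls s (.inr ((le_max_right _ _).trans hs))]; simp
    · rw [sum_add_distrib]
      have h1 : ∑ s ∈ range (max M n'), L s = ∑ s ∈ range n, L s := by
        symm
        refine sum_subset (range_mono ((le_max_left n m).trans (le_max_left _ _))) ?_
        intro s _ hs
        exact hLs s (.inr (not_lt.1 fun h => hs (mem_range.2 h)))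
      have h2 : ∑ s ∈ range (max M n'), l s = ∑ s ∈ range n', l s := by
        symm
        refine sum_subset (range_mono (le_max_right _ _)) ?_
        intro s _ hs
        exact hls s (.inr (not_lt.1 fun h => hs (mem_range.2 h)))
      rw [h1, h2, hL1, hl1]; push_cast; ring
    · intro G hG S hS hHS
      rw [sum_add_distrib]
      by_cases hne : (S.filter (· < M)).Nonempty
      · set s0 := (S.filter (· < M)).min' hne with hs0
        have hs0m := (S.filter (· < M)).min'_mem hne
        rw [← hs0, mem_filter] at hs0m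
        have h3 : ∑ s ∈ S, l s = ∑ s ∈ S with M ≤ s, l s := by
          rw [sum_filter]
          refine sum_congr rfl fun s _ => ?_
          by_cases h : M ≤ s
          · simp [h]
          · simp [h, hls s (.inl (not_le.1 h))]
        have hins : H (insert s0 G) := by
          refine hH _ _ ?_ hHS
          intro x hx
          rcases mem_insert.1 hx with h | h
          · exact mem_union_right _ (h ▸ hs0m.1)
          · exact mem_union_left _ h
        have h4 : ∑ s ∈ S with M ≤ s, l s ≤ e := by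
          refine hlG (insert s0 G) ?_ _ ?_ ?_
          · rw [h𝒞, mem_filter]
            refine ⟨mem_image.2 ⟨(G, s0), mem_product.2 ⟨hG, mem_range.2 hs0m.2⟩, rfl⟩,
              G, hG, hins, s0, fun g hg => hS g hg s0 hs0m.1, rfl⟩
          · intro g hg s hs
            rw [mem_filter] at hs
            rcases mem_insert.1 hg with h | h
            · rw [h]; exact hs0m.2.trans_le hs.2
            · exact hS g h s hs.1
          · refine hH _ _ ?_ hHS
            intro x hx
            rcases mem_union.1 hx with hx | hx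
            · rcases mem_insert.1 hx with h | h
              · exact mem_union_right _ (h ▸ hs0m.1)
              · exact mem_union_left _ h
            · exact mem_union_right _ (mem_filter.1 hx).1
        have h5 := hLG G hG S hS hHS
        rw [h3]
        push_cast
        nlinarith
      · rw [not_nonempty_iff_eq_empty] at hne
        have h6 : ∑ s ∈ S, L s = 0 := by
          refine sum_eq_zero fun s hs => hLs s (.inr ?_)
          by_contra h
          have : s ∈ S.filter (· < M) :=
            mem_filter.2 ⟨hs, (not_le.1 h).trans_le (le_max_left _ _)⟩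
          rw [hne] at this
          exact notMem_empty _ this
        have h7 : ∑ s ∈ S, l s ≤ 1 := by
          rw [← hl1]
          exact ptak_sum_le hl0 (fun s hs => hls s (.inr hs)) S
        rw [h6]
        have : 0 ≤ ((N + 1 : ℕ) : ℝ) * e := by positivity
        linarith

theorem ptak_main {H : Finset ℕ → Prop} (hH : Hered H) (hW : WFam H) :
    ∀ (α : Ordinal.{0}) (𝒢 : Finset (Finset ℕ)),
      (∀ G ∈ 𝒢, ((ptak_wf hH hW).apply G).rank < α) → ptak_Q H 𝒢 := by
  intro α
  induction α using WellFoundedLT.induction with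
  | ind α ih =>
    intro 𝒢 h𝒢
    have hc : ∀ 𝒞 : Finset (Finset ℕ), (∀ c ∈ 𝒞, ∃ G ∈ 𝒢, ptak_R H c G) → ptak_Q H 𝒞 := by
      intro 𝒞 h𝒞
      by_cases hne : 𝒢.Nonempty
      · obtain ⟨G0, hG0, hG1⟩ := exists_mem_eq_sup' hne (fun G => ((ptak_wf hH hW).apply G).rank)
        refine ih _ (hG1 ▸ h𝒢 G0 hG0) 𝒞 fun c hc => ?_
        obtain ⟨G, hG, hR⟩ := h𝒞 c hc
        exact (Acc.rank_lt_of_rel ((ptak_wf hH hW).apply G) hR).trans_le
          (le_sup' (fun G => ((ptak_wf hH hW).apply G).rank) hG)
      · intro e he m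
        rw [not_nonempty_iff_eq_empty] at hne
        refine ⟨m + 1, fun s => if s = m then 1 else 0, ?_, ?_, ?_, ?_⟩
        · intro s; by_cases h : s = m <;> simp [h]
        · rintro s (h | h)
          · simp [h.ne]
          · have : s ≠ m := by omega
            simp [this]
        · simp
        · intro G hG
          obtain ⟨G', hG', _⟩ := h𝒞 G hG
          rw [hne] at hG'
          exact absurd hG' (notMem_empty _)
    intro e he m
    obtain ⟨N, hN⟩ := exists_nat_ge (2 / e)
    have hNpos : 0 < (N : ℝ) := (by positivity : 0 < 2 / e).trans_le hN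
    obtain ⟨n, L, hL0, hLs, hL1, hLG⟩ := ptak_block hH 𝒢 hc (e / 2) (by positivity) m N
    refine ⟨n, fun s => L s / N, fun s => div_nonneg (hL0 s) hNpos.le, fun s hs => ?_, ?_, ?_⟩
    · beta_reduce; rw [hLs s hs, zero_div]
    · rw [← sum_div, hL1, div_self hNpos.ne']
    · intro G hG S hS hHS
      rw [← sum_div, div_le_iff₀ hNpos]
      have := hLG G hG S hS hHS
      have h2 : 2 ≤ N * e := by rwa [div_le_iff₀ he] at hN
      nlinarith

theorem cal_ptak : PTAKStmt := by
  intro H hH hW e he t ht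
  let H' : Finset ℕ → Prop := fun G => H (G.image t)
  have hH' : Hered H' := fun G G' hGG' hG => hH _ _ (image_subset_image hGG') hG
  have hW' : WFam H' := by
    intro s hs
    obtain ⟨n, hn⟩ := hW (t ∘ s) (ht.comp hs)
    refine ⟨n, fun h => hn ?_⟩
    have : (range n).image (t ∘ s) = ((range n).image s).image t := by
      rw [image_image]
    rw [this]; exact h
  obtain ⟨n, l, hl0, hls, hl1, hlG⟩ := ptak_main hH' hW' _ {∅} (fun G hG =>
    lt_of_le_of_lt (le_of_eq (by rw [mem_singleton.1 hG])) (Order.lt_succ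
      ((ptak_wf hH' hW').apply ∅).rank)) e he 0
  classical
  refine ⟨n, fun s => ∑ i ∈ range n, if t i = s then l i else 0, ?_, ?_, ?_, ?_⟩
  · intro s
    refine sum_nonneg fun i _ => ?_
    by_cases h : t i = s <;> simp [h, hl0 i]
  · intro s hs
    refine sum_eq_zero fun i hi => ?_
    rw [if_neg]
    rintro rfl
    exact hs (mem_image_of_mem _ hi)
  · rw [sum_image fun a _ b _ h => ht.injective h]
    rw [← hl1]
    refine sum_congr rfl fun j hj => ?_
    rw [sum_eq_single j]
    · simp
    · intro i _ hij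
      rw [if_neg fun h => hij (ht.injective h)]
    · intro h; exact absurd hj h
  · intro G hG
    rw [sum_comm]
    have h1 : ∀ i ∈ range n, ∑ s ∈ G, (if t i = s then l i else 0) =
        if t i ∈ G then l i else 0 := by
      intro i _
      rw [sum_ite_eq]
    rw [sum_congr rfl h1, ← sum_filter]
    refine hlG ∅ (mem_singleton_self _) _ (by simp) ?_
    rw [empty_union]
    refine hH _ _ ?_ hG
    intro x hx
    obtain ⟨i, hi, rfl⟩ := mem_image.1 hx
    exact (mem_filter.1 hi).2

end CAL
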