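import Pool.Agent.H27.CAL.Stmts2

open Finset

namespace CAL

theorem cal_ptakf (hP : PTAKStmt) : PTAKFStmt := by
  intro W hW01 hWF e he t ht
  obtain ⟨n, l, hl0, hls, hl1, hlG⟩ := hP (fun H => ∃ g, W g ∧ ∀ s ∈ H, e / 2 ≤ g s)
    (fun G G' hGG' ⟨g, hg, h⟩ => ⟨g, hg, fun s hs => h s (hGG' hs)⟩) (hWF (e / 2) (by positivity))
    (e / 2) (by positivity) t ht
  refine ⟨n, l, hl0, hls, hl1, fun g hg => ?_⟩
  classical
  set T := (range n).image t
  have h1 : ∑ s ∈ T, l s * g s ≤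
      ∑ s ∈ T, ((if e / 2 ≤ g s then l s else 0) + l s * (e / 2)) := by
    refine sum_le_sum fun s _ => ?_
    have h01 := hW01 g hg s
    have hl := hl0 s
    by_cases h : e / 2 ≤ g s
    · rw [if_pos h]; nlinarith
    · rw [if_neg h, zero_add]
      exact mul_le_mul_of_nonneg_left (not_le.1 h).le hl
  rw [sum_add_distrib, ← sum_filter, ← sum_mul, hl1] at h1
  have h2 := hlG (T.filter fun s => e / 2 ≤ g s) ⟨g, hg, fun s hs => (mem_filter.1 hs).2⟩
  linarith

end CAL
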