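import Pool.Agent.H27.CAL.Stmts2

namespace CAL

theorem wwb_mm_pos (i : ℕ) : 0 < mm i := by unfold mm; positivity

theorem wwb_mm_ge (i : ℕ) : 1 ≤ mm i := by
  unfold mm
  exact one_le_pow₀ (by norm_num)

theorem cal_wwb : WWBStmt := by
  intro Ch Fam j g hg
  induction hg with
  | zero => intro s; simp
  | single t =>
    intro s
    by_cases h : s = t <;> simp [h]
  | chain G hG =>
    intro s
    by_cases h : s ∈ G <;> simp [h]
  | node i hi P hP S hS h hh hd ih =>
    intro s
    have h1 : 0 ≤ (if s ∈ S then (1 : ℝ) else 0) + h s ∧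
        (if s ∈ S then (1 : ℝ) else 0) + h s ≤ 1 := by
      by_cases hs : s ∈ S
      · simp [hs, hd s hs]
      · have := ih (cnt P s) s
        simp only [if_true] at this
        simpa [hs] using this
    have h2 : (mm i)⁻¹ ≤ 1 := inv_le_one_of_one_le₀ (wwb_mm_ge i)
    have h3 : 0 ≤ (mm i)⁻¹ := (inv_pos.2 (wwb_mm_pos i)).le
    exact ⟨mul_nonneg h3 h1.1, mul_le_one₀ h2 h1.1 h1.2⟩

end CAL
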