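import Pool.Agent.H27.CAL.Stmts2

namespace CAL

theorem wwc_aux (Ch : Finset ℕ → Prop) (Fam Fam' : ℕ → Finset ℕ → Prop) (j : ℕ)
    (hF : ∀ i < j, ∀ P, Fam i P ↔ Fam' i P) (g : ℕ → ℝ) (hg : WW Ch Fam j g) :
    WW Ch Fam' j g := by
  induction hg with
  | zero => exact .zero
  | single t => exact .single t
  | chain G hG => exact .chain G hG
  | node i hi P hP S hS h hh hd ih =>
    exact .node i hi P ((hF i hi P).1 hP) S hS h ih hd

theorem cal_wwc : WWCStmt := by
  intro Ch Fam Fam' j hF g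
  exact ⟨wwc_aux Ch Fam Fam' j hF g,
    wwc_aux Ch Fam' Fam j (fun i hi P => (hF i hi P).symm) g⟩

end CAL
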